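import Mathlib

set_option autoImplicit false

namespace Pool.Agent.H58.KL

open Cardinal Set

universe u v

/-- A family of at most `κ` sets of cardinality at least `κ` has an injective choice function. -/
lemma exists_sdr {R X : Type u} (S : R → Set X) (h : ∀ r, #R ≤ #(S r)) :
    ∃ f : R → X, Function.Injective f ∧ ∀ r, f r ∈ S r := by
  classical
  obtain ⟨_, _, hr⟩ := Cardinal.exists_ord_eq_type_lt R
  have hex : ∀ (x : R) (F : ∀ y : R, y < x → X), ∃ v ∈ S x, ∀ y (hy : y < x), F y hy ≠ v := by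
    intro x F
    by_contra hcon
    push Not at hcon
    have hsub : S x ⊆ Set.range (fun y : Set.Iio x => F y.1 y.2) := by
      intro v hv
      obtain ⟨y, hy, he⟩ := hcon v hv
      exact ⟨⟨y, hy⟩, he⟩
    have h1 : #(S x) ≤ #(Set.Iio x) := (mk_le_mk_of_subset hsub).trans mk_range_le
    have h2 : #(Set.Iio x) < #R := Cardinal.mk_Iio_lt x hr
    exact absurd ((h x).trans h1) (not_le.mpr h2)
  choose φ hφ1 hφ2 using hex
  have wf : WellFounded (fun a b : R => a < b) := wellFounded_lt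
  let f : R → X := wf.fix (fun x F => φ x F)
  have hf : ∀ x, f x = φ x (fun y _ => f y) := by
    intro x
    exact wf.fix_eq _ x
  have hmem : ∀ x, f x ∈ S x := by
    intro x
    rw [hf]
    exact hφ1 _ _
  have hne : ∀ x y, y < x → f y ≠ f x := by
    intro x y hy
    rw [hf x]
    exact hφ2 x (fun y _ => f y) y hy
  refine ⟨f, ?_, hmem⟩
  intro x y hxy
  rcases lt_trichotomy x y with h' | h' | h'
  · exact absurd hxy (hne y x h')
  · exact h'
  · exact absurd hxy.symm (hne x y h')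

variable {G : Type u} [Group G]

/-- Multiplication on the right (`true`) or on the left (`false`). -/
def mulS (s : Bool) (z h : G) : G := bif s then z * h else h * z

@[simp] lemma mulS_true (z h : G) : mulS true z h = z * h := rfl
@[simp] lemma mulS_false (z h : G) : mulS false z h = h * z := rfl

lemma mulS_injective (s : Bool) (z : G) : Function.Injective (mulS s z) := by
  intro a b h
  cases s
  · simpa using h
  · simpa using h

lemma mulS_one (s : Bool) (z : G) : mulS s z 1 = z := by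
  cases s <;> simp

lemma mulS_inv (s : Bool) (w v h : G) (e : mulS s w h = v) : w = mulS s v h⁻¹ := by
  subst e
  cases s <;> simp

lemma mem_of_mulS_mem (H : Subgroup G) (s : Bool) (z h : G) (h1 : mulS s z h ∈ H)
    (h2 : h ∈ H) : z ∈ H := by
  cases s
  · exact (H.mul_mem_cancel_left h2).mp h1
  · exact (H.mul_mem_cancel_right h2).mp h1

/-- Associativity on one side. -/
lemma mulS_mulS (s : Bool) (z a b : G) (H : Subgroup G) (ha : a ∈ H) (hb : b ∈ H) :
    ∃ c ∈ H, mulS s (mulS s z a) b = mulS s z c := by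
  cases s
  · exact ⟨b * a, H.mul_mem hb ha, by simp [mul_assoc]⟩
  · exact ⟨a * b, H.mul_mem ha hb, by simp [mul_assoc]⟩


section limit

variable {I : Type v} [LinearOrder I] {M : I → Subgroup G}

/-- The union of the earlier subgroups, together with `1`. -/
def N (hM : Monotone M) (i : I) : Subgroup G where
  carrier := {h | h = 1 ∨ ∃ j < i, h ∈ M j}
  mul_mem' := by
    rintro a b (rfl | ⟨j, hj, ha⟩) (rfl | ⟨k, hk, hb⟩)
    · left; simp
    · right; exact ⟨k, hk, by simpa using hb⟩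
    · right; exact ⟨j, hj, by simpa using ha⟩
    · right
      exact ⟨max j k, max_lt hj hk,
        (M _).mul_mem (hM (le_max_left _ _) ha) (hM (le_max_right _ _) hb)⟩
  one_mem' := Or.inl rfl
  inv_mem' := by
    rintro a (rfl | ⟨j, hj, ha⟩)
    · left; simp
    · right; exact ⟨j, hj, (M j).inv_mem ha⟩

lemma mem_N {hM : Monotone M} {i : I} {h : G} : h ∈ N hM i ↔ h = 1 ∨ ∃ j < i, h ∈ M j := Iff.rfl

lemma N_le (hM : Monotone M) (i : I) : N hM i ≤ M i := by
  rintro h (rfl | ⟨j, hj, hh⟩)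
  · exact (M i).one_mem
  · exact hM hj.le hh

lemma le_N (hM : Monotone M) {i j : I} (hj : j < i) : M j ≤ N hM i := by
  intro h hh
  exact Or.inr ⟨j, hj, hh⟩

/-- The double coset of `x`. -/
def D (M : I → Subgroup G) (x : G) (i : I) (z : G) : Prop := ∃ a ∈ M i, ∃ b ∈ M i, a * x * b = z

/-- The level set. -/
def L (M : I → Subgroup G) (x : G) (i : I) (z : G) : Prop := D M x i z ∧ ∀ j < i, ¬ D M x j z

lemma D_mono (hM : Monotone M) {x z : G} {i j : I} (hij : i ≤ j) (h : D M x i z) :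
    D M x j z := by
  obtain ⟨a, ha, b, hb, e⟩ := h
  exact ⟨a, hM hij ha, b, hM hij hb, e⟩

lemma D_mulS {x z : G} {i : I} (h : D M x i z) (s : Bool) {c : G} (hc : c ∈ M i) :
    D M x i (mulS s z c) := by
  obtain ⟨a, ha, b, hb, rfl⟩ := h
  cases s
  · exact ⟨c * a, (M i).mul_mem hc ha, b, hb, by simp [mul_assoc]⟩
  · exact ⟨a, ha, b * c, (M i).mul_mem hb hc, by simp [mul_assoc]⟩

lemma D_of_mulS {x z : G} {i : I} (s : Bool) {c : G} (hc : c ∈ M i)
    (h : D M x i (mulS s z c)) : D M x i z := by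
  have := mulS_inv s z (mulS s z c) c rfl
  rw [this]
  exact D_mulS h s ((M i).inv_mem hc)

lemma L_mulS (hM : Monotone M) {x z : G} {i : I} (h : L M x i z) (s : Bool) {c : G}
    (hc : c ∈ N hM i) : L M x i (mulS s z c) := by
  refine ⟨D_mulS h.1 s (N_le hM i hc), ?_⟩
  intro j hj hD
  rcases hc with rfl | ⟨k, hk, hck⟩
  · rw [mulS_one] at hD
    exact h.2 j hj hD
  · have h1 : D M x (max j k) (mulS s z c) := D_mono hM (le_max_left _ _) hD
    have h2 := D_of_mulS s (hM (le_max_right j k) hck) h1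
    exact h.2 _ (max_lt hj hk) h2

lemma L_unique {x z : G} {i j : I} (hi : L M x i z) (hj : L M x j z) : i = j := by
  rcases lt_trichotomy i j with h | h | h
  · exact absurd hi.1 (hj.2 i h)
  · exact h
  · exact absurd hj.1 (hi.2 j h)

/-- The inductive property. -/
def GC (hM : Monotone M) (ρ : G → I) (i : I) : Prop :=
  ∃ c : G → Option G, ∀ (s : Bool) (z : G),
    (∀ g, ρ g < i → ∃ h ∈ M (ρ g), c (mulS s z h) = some g) ∧
    (∃ h ∈ N hM i, c (mulS s z h) = none)

lemma mk_D_le (x : G) (i : I) : #{z // D M x i z} ≤ #(M i) * #(M i) := by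
  have : Function.Surjective (fun p : (M i) × (M i) =>
      (⟨p.1.1 * x * p.2.1, p.1.1, p.1.2, p.2.1, p.2.2, rfl⟩ : {z // D M x i z})) := by
    rintro ⟨z, a, ha, b, hb, rfl⟩
    exact ⟨(⟨a, ha⟩, ⟨b, hb⟩), rfl⟩
  have h := Cardinal.mk_le_of_surjective this
  rwa [Cardinal.mk_prod, Cardinal.lift_id] at h

lemma mk_lower_D_le (hM : Monotone M) (x : G) (i : I) :
    #{z // ∃ j < i, D M x j z} ≤ #(N hM i) * #(N hM i) := by
  have : Set.SurjOn (fun p : (N hM i) × (N hM i) => p.1.1 * x * p.2.1) Set.univ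
      {z | ∃ j < i, D M x j z} := by
    rintro z ⟨j, hj, a, ha, b, hb, rfl⟩
    exact ⟨(⟨a, le_N hM hj ha⟩, ⟨b, le_N hM hj hb⟩), trivial, rfl⟩
  have h1 : #{z // ∃ j < i, D M x j z} ≤ #((N hM i) × (N hM i)) := by
    have h2 := (mk_le_mk_of_subset this).trans (mk_image_le)
    rw [mk_univ] at h2
    exact h2
  rwa [Cardinal.mk_prod, Cardinal.lift_id] at h1

lemma level (hM : Monotone M) (ρ : G → I) (hρ : ∀ g, g ∈ M (ρ g)) (i : I) (hGC : GC hM ρ i)
    (x : G) (hinf : ℵ₀ ≤ #(M i)) (hlt : #(N hM i) < #(M i)) : ∃ e : G → Option G,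
    (∀ s z, D M x i z → ∀ g, ρ g = i →
      ∃ h ∈ M i, L M x i (mulS s z h) ∧ e (mulS s z h) = some g) ∧
    (∀ s z, D M x i z → ∃ h ∈ M i, L M x i (mulS s z h) ∧ e (mulS s z h) = none) ∧
    (∀ s z, L M x i z → ∀ g, ρ g < i → ∃ h ∈ M (ρ g), e (mulS s z h) = some g) := by
  classical
  obtain ⟨c, hc⟩ := hGC
  let R := {z // D M x i z} × Bool × Option {g // ρ g = i}
  let S : R → Set G := fun r =>
    {w | (∃ h ∈ M i, mulS r.2.1 r.1.1 h = w) ∧ L M x i w ∧ c w = none}
  have hR : #R ≤ #(M i) := by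
    have h1 : #{z // D M x i z} ≤ #(M i) := (mk_D_le x i).trans (mul_eq_self hinf).le
    have h2 : #{g // ρ g = i} ≤ #(M i) := by
      refine Cardinal.mk_le_of_injective (f := fun g => ⟨g.1, ?_⟩) ?_
      · have := hρ g.1
        rwa [g.2] at this
      · intro a b hab
        simp only [Subtype.mk.injEq] at hab
        exact Subtype.ext hab
    have h3 : #(Option {g // ρ g = i}) ≤ #(M i) := by
      rw [mk_option]
      exact (add_le_add h2 (one_le_aleph0.trans hinf)).trans (add_eq_self hinf).le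
    have h4 : #(Bool × Option {g // ρ g = i}) ≤ #(M i) := by
      rw [mk_prod]
      simp only [mk_bool, lift_ofNat, lift_uzero]
      refine (mul_le_mul' ((Cardinal.natCast_le_aleph0 (n := 2)).trans hinf) h3).trans ?_
      exact (mul_eq_self hinf).le
    rw [mk_prod, lift_id, lift_id]
    exact (mul_le_mul' h1 h4).trans (mul_eq_self hinf).le
  have hS : ∀ r, #(M i) ≤ #(S r) := by
    rintro ⟨⟨z, hz⟩, s, o⟩
    -- the coset
    let T : Set G := {w | (∃ h ∈ M i, mulS s z h = w) ∧ L M x i w}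
    have hT : #(M i) ≤ #T := by
      by_contra hcon
      push Not at hcon
      have hcover : Set.range (fun h : M i => mulS s z h.1) ⊆
          T ∪ {w | ∃ j < i, D M x j w} := by
        rintro _ ⟨⟨h, hh⟩, rfl⟩
        by_cases hj : ∃ j < i, D M x j (mulS s z h)
        · right
          exact hj
        · left
          push Not at hj
          exact ⟨⟨h, hh, rfl⟩, D_mulS hz s hh, hj⟩
      have h1 : #(M i) ≤ #T + #{w // ∃ j < i, D M x j w} := by
        have hinj : Function.Injective (fun h : M i => mulS s z h.1) := by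
          intro a b hab
          exact Subtype.ext (mulS_injective s z hab)
        rw [← mk_range_eq _ hinj]
        exact (mk_le_mk_of_subset hcover).trans (mk_union_le _ _)
      have h2 : #{w // ∃ j < i, D M x j w} < #(M i) :=
        lt_of_le_of_lt (mk_lower_D_le hM x i) (mul_lt_of_lt hinf hlt hlt)
      exact absurd h1 (not_le.mpr (add_lt_of_lt hinf hcon h2))
    by_contra hcon
    push Not at hcon
    have hu : ∀ w : G, ∃ h ∈ N hM i, c (mulS s w h) = none := fun w => (hc s w).2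
    choose u hu1 hu2 using hu
    let φ : T → (S (⟨z, hz⟩, s, o)) := fun w => ⟨mulS s w.1 (u w.1), by
      obtain ⟨⟨h, hh, hhw⟩, hL⟩ := w.2
      refine ⟨?_, L_mulS hM hL s (hu1 _), hu2 _⟩
      rw [← hhw]
      obtain ⟨d, hd, hd'⟩ := mulS_mulS s z h (u (mulS s z h)) (M i) hh (N_le hM i (hu1 _))
      exact ⟨d, hd, hd'.symm⟩⟩
    have hfib : ∀ b, #(φ ⁻¹' {b}) ≤ #(N hM i) := by
      intro b
      refine Cardinal.mk_le_of_injective (f := fun w => ⟨u w.1.1, hu1 _⟩) ?_
      intro w w' hww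
      simp only [Subtype.mk.injEq] at hww
      have e1 : mulS s w.1.1 (u w.1.1) = b.1 := congrArg Subtype.val w.2
      have e2 : mulS s w'.1.1 (u w'.1.1) = b.1 := congrArg Subtype.val w'.2
      apply Subtype.ext
      apply Subtype.ext
      rw [mulS_inv s _ _ _ e1, mulS_inv s _ _ _ e2, hww]
    have h3 : #T ≤ #(S (⟨z, hz⟩, s, o)) * #(N hM i) := by
      exact Cardinal.mk_le_mk_mul_of_mk_preimage_le φ hfib
    exact absurd (hT.trans h3) (not_le.mpr (mul_lt_of_lt hinf hcon hlt))
  obtain ⟨f, hfinj, hf⟩ := exists_sdr S (fun r => hR.trans (hS r))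
  let e : G → Option G := fun w =>
    if h : ∃ r : {z // D M x i z} × Bool × {g // ρ g = i}, f (r.1, r.2.1, some r.2.2) = w
    then some h.choose.2.2.1 else c w
  have he1 : ∀ (z : {z // D M x i z}) (s : Bool) (g : {g // ρ g = i}),
      e (f (z, s, some g)) = some g.1 := by
    intro z s g
    have hex : ∃ r : {z // D M x i z} × Bool × {g // ρ g = i},
        f (r.1, r.2.1, some r.2.2) = f (z, s, some g) := ⟨(z, s, g), rfl⟩
    have h1 := congrArg (fun r : R => r.2.2) (hfinj hex.choose_spec)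
    have h2 : hex.choose.2.2 = g := Option.some.inj h1
    simp only [e]
    rw [dif_pos hex, h2]
  have he2 : ∀ w, (¬ ∃ r : {z // D M x i z} × Bool × {g // ρ g = i},
      f (r.1, r.2.1, some r.2.2) = w) → e w = c w := by
    intro w hw
    simp only [e]
    rw [dif_neg hw]
  refine ⟨e, ?_, ?_, ?_⟩
  · intro s z hz g hg
    have h1 := hf (⟨z, hz⟩, s, some ⟨g, hg⟩)
    obtain ⟨⟨h, hh, hhw⟩, hL, -⟩ := h1
    simp only at hhw
    refine ⟨h, hh, ?_, ?_⟩
    · rw [hhw]
      exact hL
    · rw [hhw]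
      exact he1 _ _ _
  · intro s z hz
    have h1 := hf (⟨z, hz⟩, s, none)
    obtain ⟨⟨h, hh, hhw⟩, hL, hcn⟩ := h1
    simp only at hhw
    refine ⟨h, hh, ?_, ?_⟩
    · rw [hhw]
      exact hL
    · rw [hhw, he2, hcn]
      rintro ⟨r, hr⟩
      have h1 := congrArg (fun r : R => r.2.2) (hfinj hr)
      exact Option.some_ne_none _ h1
  · intro s z hL g hg
    obtain ⟨h, hh, hcg⟩ := (hc s z).1 g hg
    refine ⟨h, hh, ?_⟩
    rw [he2, hcg]
    rintro ⟨r, hr⟩
    have h1 := (hf (r.1, r.2.1, some r.2.2)).2.2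
    rw [hr, hcg] at h1
    simp at h1

lemma exists_level [WellFoundedLT I] (hM : Monotone M) {x z : G} {i : I} (h : D M x i z) :
    ∃ j ≤ i, L M x j z := by
  have wf : WellFounded (fun a b : I => a < b) := wellFounded_lt
  have hne : {j | D M x j z}.Nonempty := ⟨i, h⟩
  refine ⟨wf.min _ hne, ?_, wf.min_mem _ hne, ?_⟩
  · exact not_lt.mp (wf.not_lt_min _ h)
  · intro j hj hD
    exact wf.not_lt_min _ hD hj

/-- The step: a partial colouring on the union of the double cosets of `x` for indices in a lower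
set `J`. -/
lemma step [WellFoundedLT I] (hM : Monotone M) (ρ : G → I) (hρ : ∀ g, g ∈ M (ρ g))
    (hinf : ∀ i, ℵ₀ ≤ #(M i)) (hlt : ∀ i, #(N hM i) < #(M i)) (J : Set I) (hJ : IsLowerSet J)
    (hGC : ∀ i ∈ J, GC hM ρ i) (x : G) : ∃ c : G → Option G,
    ∀ i ∈ J, ∀ s z, D M x i z → (∀ g, ρ g ∈ J → ∃ h ∈ M (ρ g), c (mulS s z h) = some g) ∧
      (∃ h ∈ M i, c (mulS s z h) = none) := by
  classical
  have hlev : ∀ i ∈ J, ∃ e : G → Option G,
    (∀ s z, D M x i z → ∀ g, ρ g = i →
      ∃ h ∈ M i, L M x i (mulS s z h) ∧ e (mulS s z h) = some g) ∧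
    (∀ s z, D M x i z → ∃ h ∈ M i, L M x i (mulS s z h) ∧ e (mulS s z h) = none) ∧
    (∀ s z, L M x i z → ∀ g, ρ g < i → ∃ h ∈ M (ρ g), e (mulS s z h) = some g) :=
    fun i hi => level hM ρ hρ i (hGC i hi) x (hinf i) (hlt i)
  choose! e he1 he2 he3 using hlev
  let c : G → Option G := fun w => if h : ∃ i, L M x i w then e h.choose w else none
  have hc : ∀ i w, L M x i w → c w = e i w := by
    intro i w hw
    have hex : ∃ i, L M x i w := ⟨i, hw⟩
    simp only [c]
    rw [dif_pos hex, L_unique hex.choose_spec hw]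
  refine ⟨c, ?_⟩
  intro i hi s z hz
  constructor
  · intro g hg
    by_cases hD : D M x (ρ g) z
    · obtain ⟨h, hh, hL, heq⟩ := he1 (ρ g) hg s z hD g rfl
      exact ⟨h, hh, by rw [hc _ _ hL, heq]⟩
    · obtain ⟨k, hk, hL⟩ := exists_level hM hz
      have hgk : ρ g < k := by
        by_contra hcon
        push Not at hcon
        exact hD (D_mono hM hcon hL.1)
      obtain ⟨h, hh, heq⟩ := he3 k (hJ hk hi) s z hL g hgk
      refine ⟨h, hh, ?_⟩
      rw [hc k _ (L_mulS hM hL s (le_N hM hgk hh)), heq]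
  · obtain ⟨h, hh, hL, heq⟩ := he2 i hi s z hz
    exact ⟨h, hh, by rw [hc _ _ hL, heq]⟩

/-- Double coset equivalence. -/
def dc (H : Subgroup G) : Setoid G where
  r z w := ∃ a ∈ H, ∃ b ∈ H, a * z * b = w
  iseqv := by
    refine ⟨fun z => ⟨1, H.one_mem, 1, H.one_mem, by simp⟩, ?_, ?_⟩
    · rintro z w ⟨a, ha, b, hb, rfl⟩
      exact ⟨a⁻¹, H.inv_mem ha, b⁻¹, H.inv_mem hb, by group⟩
    · rintro z w v ⟨a, ha, b, hb, rfl⟩ ⟨c, hc, d, hd, rfl⟩
      exact ⟨c * a, H.mul_mem hc ha, b * d, H.mul_mem hb hd, by group⟩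

lemma exists_rep (H : Subgroup G) : ∃ rep : G → G,
    (∀ z, ∃ a ∈ H, ∃ b ∈ H, a * rep z * b = z) ∧
    (∀ s z, ∀ h ∈ H, rep (mulS s z h) = rep z) := by
  refine ⟨fun z => Quotient.out (Quotient.mk (dc H) z), ?_, ?_⟩
  · intro z
    exact Quotient.mk_out (s := dc H) z
  · intro s z h hh
    have : Quotient.mk (dc H) (mulS s z h) = Quotient.mk (dc H) z := by
      apply Quotient.sound
      cases s
      · exact ⟨h⁻¹, H.inv_mem hh, 1, H.one_mem, by simp⟩
      · exact ⟨1, H.one_mem, h⁻¹, H.inv_mem hh, by simp⟩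
    simp only [this]

lemma all_GC [WellFoundedLT I] (hM : Monotone M) (ρ : G → I) (hρ : ∀ g, g ∈ M (ρ g))
    (hinf : ∀ i, ℵ₀ ≤ #(M i)) (hlt : ∀ i, #(N hM i) < #(M i)) (i : I) : GC hM ρ i := by
  classical
  induction i using WellFoundedLT.induction with
  | ind i ih =>
    by_cases hmin : ∃ j, j < i
    · obtain ⟨j₀, hj₀⟩ := hmin
      have hst := step hM ρ hρ hinf hlt {j | j < i} (fun a b hab ha => lt_of_le_of_lt hab ha) ih
      choose c hc using hst
      obtain ⟨rep, hrep1, hrep2⟩ := exists_rep (N hM i)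
      refine ⟨fun w => c (rep w) w, ?_⟩
      intro s z
      have hz : ∃ j < i, D M (rep z) j z := by
        obtain ⟨a, ha, b, hb, hab⟩ := hrep1 z
        have key : ∀ a ∈ N hM i, ∃ j < i, a ∈ M j := by
          rintro a (rfl | h)
          · exact ⟨j₀, hj₀, (M j₀).one_mem⟩
          · exact h
        obtain ⟨j, hj, haj⟩ := key a ha
        obtain ⟨k, hk, hbk⟩ := key b hb
        exact ⟨max j k, max_lt hj hk, a, hM (le_max_left _ _) haj, b,
          hM (le_max_right _ _) hbk, hab⟩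
      obtain ⟨j, hj, hD⟩ := hz
      obtain ⟨h1, h2⟩ := hc (rep z) j hj s z hD
      constructor
      · intro g hg
        obtain ⟨h, hh, heq⟩ := h1 g hg
        refine ⟨h, hh, ?_⟩
        change c (rep (mulS s z h)) (mulS s z h) = some g
        rw [hrep2 s z h (le_N hM hg hh)]
        exact heq
      · obtain ⟨h, hh, heq⟩ := h2
        refine ⟨h, le_N hM hj hh, ?_⟩
        change c (rep (mulS s z h)) (mulS s z h) = none
        rw [hrep2 s z h (le_N hM hj hh)]
        exact heq
    · push Not at hmin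
      refine ⟨fun _ => none, fun s z => ⟨?_, 1, (N hM i).one_mem, rfl⟩⟩
      intro g hg
      exact absurd hg (not_lt.mpr (hmin _))

/-- Colouring of a group with a filtration by subgroups of strictly growing size. -/
theorem limit_case [WellFoundedLT I] (hM : Monotone M) (hcov : ∀ g, ∃ i, g ∈ M i)
    (hinf : ∀ i, ℵ₀ ≤ #(M i)) (hlt : ∀ i, #(N hM i) < #(M i)) :
    ∃ c : G → G, ∀ g, ∃ i, ∀ s z, ∃ h ∈ M i, c (mulS s z h) = g := by
  classical
  choose ρ hρ using hcov
  obtain ⟨c, hc⟩ := step hM ρ hρ hinf hlt Set.univ isLowerSet_univ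
    (fun i _ => all_GC hM ρ hρ hinf hlt i) 1
  refine ⟨fun w => (c w).getD 1, fun g => ⟨ρ g, fun s z => ?_⟩⟩
  have hD : D M 1 (ρ z) z := ⟨z, hρ z, 1, (M _).one_mem, by simp⟩
  obtain ⟨h, hh, heq⟩ := (hc (ρ z) trivial s z hD).1 g trivial
  exact ⟨h, hh, by simp [heq]⟩

/-- Colouring of a group with a filtration by subgroups of constant size. -/
theorem succ_case [WellFoundedLT I] (hM : Monotone M) (hcov : ∀ g, ∃ i, g ∈ M i)
    (κ : Cardinal.{u}) (hκ : ℵ₀ ≤ κ) (hcard : ∀ i, #(M i) = κ) :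
    ∃ c : G → G, ∀ g, ∃ i, ∀ s z, ∃ h ∈ M i, c (mulS s z h) = g := by
  classical
  have wf : WellFounded (fun a b : I => a < b) := wellFounded_lt
  let ρ : G → I := fun g => wf.min {i | g ∈ M i} (hcov g)
  have hρ : ∀ g, g ∈ M (ρ g) := fun g => wf.min_mem {i | g ∈ M i} (hcov g)
  have hρ' : ∀ g i, g ∈ M i → ρ g ≤ i := fun g i hi => not_lt.mp (wf.not_lt_min _ hi)
  have hclosed : ∀ (s : Bool) (z h : G) (i : I), h ∈ M i → i < ρ z → ρ (mulS s z h) = ρ z := by
    intro s z h i hh hi
    apply le_antisymm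
    · apply hρ'
      have h2 := hM hi.le hh
      cases s
      · exact (M _).mul_mem h2 (hρ z)
      · exact (M _).mul_mem (hρ z) h2
    · by_contra hcon
      push Not at hcon
      have h1 : mulS s z h ∈ M (max (ρ (mulS s z h)) i) := hM (le_max_left _ _) (hρ _)
      have h2 : h ∈ M (max (ρ (mulS s z h)) i) := hM (le_max_right _ _) hh
      have h3 : z ∈ M (max (ρ (mulS s z h)) i) := mem_of_mulS_mem _ s z h h1 h2
      exact absurd (hρ' _ _ h3) (not_le.mpr (max_lt hcon hi))
  let R : I → Type u := fun i => ({g // ρ g < i} × {z // ρ z = i} × Bool) ⊕ {g // ρ g = i}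
  -- picks at level `i`
  have hpick : ∀ i : I, ∃ f : R i → G,
      Function.Injective f ∧ (∀ r, ρ (f r) = i) ∧
      (∀ g z s, ∃ h ∈ M (ρ g.1), mulS s z.1 h = f (Sum.inl (g, z, s))) := by
    intro i
    let S : R i → Set G := fun r =>
      Sum.elim (fun r => {w | ∃ h ∈ M (ρ r.1.1), mulS r.2.2 r.2.1.1 h = w})
        (fun _ => {w | ρ w = i}) r
    have hle1 : #{g // ρ g < i} ≤ κ := by
      rw [← hcard i]
      refine Cardinal.mk_le_of_injective (f := fun g => ⟨g.1, hM g.2.le (hρ g.1)⟩) ?_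
      intro a b hab
      simp only [Subtype.mk.injEq] at hab
      exact Subtype.ext hab
    have hle2 : #{g // ρ g = i} ≤ κ := by
      rw [← hcard i]
      refine Cardinal.mk_le_of_injective (f := fun g => ⟨g.1, hM g.2.le (hρ g.1)⟩) ?_
      intro a b hab
      simp only [Subtype.mk.injEq] at hab
      exact Subtype.ext hab
    have hR : #(R i) ≤ κ := by
      have h4 : #({z // ρ z = i} × Bool) ≤ κ := by
        rw [mk_prod]
        simp only [mk_bool, lift_ofNat, lift_uzero]
        refine (mul_le_mul' hle2 ((Cardinal.natCast_le_aleph0 (n := 2)).trans hκ)).trans ?_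
        exact (mul_eq_self hκ).le
      have h5 : #({g // ρ g < i} × {z // ρ z = i} × Bool) ≤ κ := by
        rw [mk_prod, lift_id, lift_id]
        exact (mul_le_mul' hle1 h4).trans (mul_eq_self hκ).le
      change #(({g // ρ g < i} × {z // ρ z = i} × Bool) ⊕ {g // ρ g = i}) ≤ κ
      rw [mk_sum, lift_id, lift_id]
      exact (add_le_add h5 hle2).trans (add_eq_self hκ).le
    have hcoset : ∀ (s : Bool) (z : G) (j : I), #{w | ∃ h ∈ M j, mulS s z h = w} = κ := by
      intro s z j
      rw [← hcard j]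
      have hinj : Function.Injective (fun h : M j => mulS s z h.1) := by
        intro a b hab
        exact Subtype.ext (mulS_injective s z hab)
      rw [← mk_range_eq _ hinj]
      congr 2
      ext w
      simp
    have hS : ∀ r, κ ≤ #(S r) := by
      rintro (⟨g, z, s⟩ | g)
      · exact (hcoset s z.1 (ρ g.1)).ge
      · change κ ≤ #{w | ρ w = i}
        by_cases hmin : ∃ j, j < i
        · obtain ⟨j, hj⟩ := hmin
          rw [← hcoset true g.1 j]
          apply mk_le_mk_of_subset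
          rintro w ⟨h, hh, rfl⟩
          have := hclosed true g.1 h j hh (by rw [g.2]; exact hj)
          rw [g.2] at this
          exact this
        · push Not at hmin
          rw [← hcard i]
          apply mk_le_mk_of_subset (s := (M i : Set G))
          intro w hw
          exact le_antisymm (hρ' w i hw) (hmin _)
    obtain ⟨f, hf1, hf2⟩ := exists_sdr S (fun r => hR.trans (hS r))
    refine ⟨f, hf1, ?_, fun g z s => hf2 (Sum.inl (g, z, s))⟩
    rintro (⟨g, z, s⟩ | g)
    · obtain ⟨h, hh, heq⟩ := hf2 (Sum.inl (g, z, s))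
      simp only at heq
      have := hclosed s z.1 h (ρ g.1) hh (by rw [z.2]; exact g.2)
      rw [heq, z.2] at this
      exact this
    · exact hf2 (Sum.inr g)
  choose f hf1 hf2 hf3 using hpick
  let col : ∀ i, R i → G := fun i r => Sum.elim (fun r => r.1.1) (fun g => g.1) r
  have huniq : ∀ i (r : R i) j (q : R j), f i r = f j q → col i r = col j q := by
    intro i r j q h
    have hij : i = j := by
      rw [← hf2 i r, ← hf2 j q, h]
    subst hij
    rw [hf1 i h]
  let c : G → G := fun w => if h : ∃ p : (Σ i, R i), f p.1 p.2 = w then col _ h.choose.2 else 1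
  have hc : ∀ i (r : R i), c (f i r) = col i r := by
    intro i r
    have hex : ∃ p : (Σ i, R i), f p.1 p.2 = f i r := ⟨⟨i, r⟩, rfl⟩
    simp only [c]
    rw [dif_pos hex]
    exact huniq _ _ _ _ hex.choose_spec
  refine ⟨c, fun g => ⟨ρ g, fun s z => ?_⟩⟩
  rcases lt_or_ge (ρ g) (ρ z) with hlt | hge
  · obtain ⟨h, hh, heq⟩ := hf3 (ρ z) ⟨g, hlt⟩ ⟨z, rfl⟩ s
    refine ⟨h, hh, ?_⟩
    simp only at heq
    rw [heq, hc]
    rfl
  · -- the coset is the subgroup itself
    have hz : z ∈ M (ρ g) := hM hge (hρ z)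
    set w := f (ρ g) (Sum.inr ⟨g, rfl⟩) with hw
    have hwρ : ρ w = ρ g := hf2 _ _
    have hwM : w ∈ M (ρ g) := by
      have := hρ w
      rwa [hwρ] at this
    obtain ⟨h, hh, hhe⟩ : ∃ h ∈ M (ρ g), mulS s z h = w := by
      cases s
      · exact ⟨w * z⁻¹, (M _).mul_mem hwM ((M _).inv_mem hz), by simp⟩
      · exact ⟨z⁻¹ * w, (M _).mul_mem ((M _).inv_mem hz) hwM, by simp⟩
    refine ⟨h, hh, ?_⟩
    rw [hhe, hw, hc]
    rfl

end limit

end Pool.Agent.H58.KL
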