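import Mathlib
import Pool.Agent.H58.KL1

set_option autoImplicit false

namespace Pool.Agent.H58.KL

open Cardinal Set

universe u v

variable {G : Type u} [Group G]

/-- The translates of a finite set. -/
def tr [DecidableEq G] (K : Finset G) (s : Bool) (x : G) : Finset G := K.image (mulS s x)

lemma exists_maximal_disjoint [DecidableEq G] (K : Finset G) (hK : K.Nonempty) (s : Bool) :
    ∃ X : Set G, X.PairwiseDisjoint (tr K s) ∧ ∀ z, ∃ x ∈ X, ¬ Disjoint (tr K s z) (tr K s x) := by
  obtain ⟨X, hX⟩ := zorn_subset {X : Set G | X.PairwiseDisjoint (tr K s)} (by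
    intro c hc hchain
    refine ⟨⋃₀ c, ?_, fun s hs => Set.subset_sUnion_of_mem hs⟩
    exact (Set.pairwiseDisjoint_sUnion hchain.directedOn).mpr (fun a ha => hc ha))
  refine ⟨X, hX.prop, ?_⟩
  intro z
  by_contra hcon
  push Not at hcon
  have h1 : insert z X ∈ {X : Set G | X.PairwiseDisjoint (tr K s)} := by
    apply Set.PairwiseDisjoint.insert hX.prop
    intro j hj _
    exact hcon j hj
  have h2 := hX.le_of_ge h1 (Set.subset_insert z X)
  have h3 : z ∈ X := h2 (Set.mem_insert z X)
  have h4 := hcon z h3
  rw [disjoint_self] at h4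
  have : (tr K s z).Nonempty := hK.image _
  rw [Finset.bot_eq_empty] at h4
  exact this.ne_empty h4

/-- Every infinite group has a colouring with countably many colours, each colour class being
large on both sides. -/
theorem countable_case [Infinite G] : ∃ c : G → ℕ, ∀ n, ∃ F : Finset G,
    ∀ s z, ∃ h ∈ F, c (mulS s z h) = n := by
  classical
  have hK : ∀ n : ℕ, ∃ K : Finset G, K.card = 2 ^ (n + 2) := fun n =>
    Infinite.exists_subset_card_eq G (2 ^ (n + 2))
  choose K hK using hK
  have hKne : ∀ n, (K n).Nonempty := by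
    intro n
    rw [← Finset.card_pos, hK]
    positivity
  choose X hX1 hX2 using fun (n : ℕ) (s : Bool) => exists_maximal_disjoint (K n) (hKne n) s
  let ι := Σ n : ℕ, Σ s : Bool, X n s
  let t : ι → Finset G := fun i => tr (K i.1) i.2.1 i.2.2.1
  have hcard : ∀ n s x, (tr (K n) s x).card = 2 ^ (n + 2) := by
    intro n s x
    rw [tr, Finset.card_image_of_injective _ (mulS_injective s x), hK]
  have hall : ∀ A : Finset ι, A.card ≤ (A.biUnion t).card := by
    intro A
    set U := A.biUnion t with hU
    -- fibres
    have hfib : ∀ (n : ℕ) (s : Bool),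
        (A.filter (fun i => i.1 = n ∧ i.2.1 = s)).card * 2 ^ (n + 2) ≤ U.card := by
      intro n s
      set B := A.filter (fun i => i.1 = n ∧ i.2.1 = s) with hB
      have hdisj : (B : Set ι).PairwiseDisjoint t := by
        rintro ⟨n1, s1, x1⟩ h1 ⟨n2, s2, x2⟩ h2 hne
        simp only [hB, Finset.coe_filter, Set.mem_ofPred_eq] at h1 h2
        obtain ⟨-, rfl, rfl⟩ := h1
        obtain ⟨-, h2a, h2b⟩ := h2
        subst h2a
        subst h2b
        apply hX1 n2 s2 x1.2 x2.2
        intro h
        apply hne
        rw [Subtype.ext h]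
      have h1 : (B.biUnion t).card = ∑ i ∈ B, (t i).card := Finset.card_biUnion hdisj
      have h2 : ∑ i ∈ B, (t i).card = B.card * 2 ^ (n + 2) := by
        rw [Finset.sum_const_nat]
        intro i hi
        simp only [hB, Finset.mem_filter] at hi
        simp only [t]
        rw [hcard, hi.2.1]
      rw [← h2, ← h1]
      apply Finset.card_le_card
      apply Finset.biUnion_subset_biUnion_of_subset_left
      exact Finset.filter_subset _ _
    obtain ⟨N, hN⟩ : ∃ N : ℕ, ∀ i ∈ A, i.1 < N := by
      refine ⟨A.sup (fun i => i.1) + 1, fun i hi => ?_⟩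
      exact Nat.lt_succ_of_le (Finset.le_sup (f := fun i : ι => i.1) hi)
    have hsum : A.card = ∑ n ∈ Finset.range N, ∑ s : Bool,
        (A.filter (fun i => i.1 = n ∧ i.2.1 = s)).card := by
      rw [← Finset.sum_product']
      have := Finset.card_eq_sum_card_fiberwise (s := A)
        (t := Finset.range N ×ˢ (Finset.univ : Finset Bool)) (f := fun i : ι => (i.1, i.2.1))
        (by
          intro i hi
          simp only [Finset.coe_product, Finset.coe_range, Finset.coe_univ, Set.mem_prod,
            Set.mem_Iio, Set.mem_univ, and_true]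
          exact hN i hi)
      rw [this]
      apply Finset.sum_congr rfl
      intro p _
      congr 1
      ext i
      simp only [Finset.mem_filter, Prod.ext_iff]
    have hreal : (A.card : ℚ) ≤ U.card := by
      rw [hsum]
      push_cast
      have h1 : ∀ n ∈ Finset.range N, ∑ s : Bool,
          ((A.filter (fun i => i.1 = n ∧ i.2.1 = s)).card : ℚ) ≤ U.card * (1 / 2) ^ (n + 1) := by
        intro n _
        have h2 : ∀ s : Bool, ((A.filter (fun i => i.1 = n ∧ i.2.1 = s)).card : ℚ) ≤
            U.card * (1 / 2) ^ (n + 2) := by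
          intro s
          have h3 : ((A.filter (fun i => i.1 = n ∧ i.2.1 = s)).card : ℚ) * 2 ^ (n + 2) ≤
              U.card := by
            exact_mod_cast hfib n s
          rw [one_div, inv_pow, ← div_eq_mul_inv, le_div_iff₀ (by positivity)]
          exact h3
        calc ∑ s : Bool, ((A.filter (fun i => i.1 = n ∧ i.2.1 = s)).card : ℚ)
            ≤ ∑ s : Bool, (U.card * (1 / 2) ^ (n + 2) : ℚ) := Finset.sum_le_sum (fun s _ => h2 s)
          _ = U.card * (1 / 2) ^ (n + 1) := by
              simp only [Finset.sum_const, Finset.card_univ, Fintype.card_bool, nsmul_eq_mul]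
              push_cast
              ring
      calc ∑ n ∈ Finset.range N, ∑ s : Bool,
            ((A.filter (fun i => i.1 = n ∧ i.2.1 = s)).card : ℚ)
          ≤ ∑ n ∈ Finset.range N, (U.card : ℚ) * (1 / 2) ^ (n + 1) := Finset.sum_le_sum h1
        _ = U.card * (1 - (1 / 2) ^ N) := by
            rw [← Finset.mul_sum]
            congr 1
            clear hsum h1 hN
            induction N with
            | zero => simp
            | succ N ih =>
              rw [Finset.sum_range_succ, ih]
              ring
        _ ≤ U.card := by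
            have : (0 : ℚ) ≤ (1 / 2) ^ N := by positivity
            have h0 : (0 : ℚ) ≤ U.card := by positivity
            nlinarith
    exact_mod_cast hreal
  obtain ⟨f, hf1, hf2⟩ := (Finset.all_card_le_biUnion_card_iff_exists_injective t).mp hall
  let c : G → ℕ := fun w => if h : ∃ i, f i = w then h.choose.1 else 0
  have hc : ∀ i, c (f i) = i.1 := by
    intro i
    have hex : ∃ j, f j = f i := ⟨i, rfl⟩
    simp only [c]
    rw [dif_pos hex, hf1 hex.choose_spec]
  refine ⟨c, fun n => ⟨((K n) ×ˢ (K n) ×ˢ (K n)).image (fun p => p.1 * p.2.1⁻¹ * p.2.2), ?_⟩⟩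
  intro s z
  obtain ⟨x, hx, hd⟩ := hX2 n s z
  rw [Finset.not_disjoint_iff] at hd
  obtain ⟨w, hw1, hw2⟩ := hd
  simp only [tr, Finset.mem_image] at hw1 hw2
  obtain ⟨k, hk, hkw⟩ := hw1
  obtain ⟨k', hk', hkw'⟩ := hw2
  have hf := hf2 ⟨n, s, x, hx⟩
  simp only [t, tr, Finset.mem_image] at hf
  obtain ⟨k'', hk'', hkf⟩ := hf
  cases s
  · refine ⟨k'' * k'⁻¹ * k, ?_, ?_⟩
    · rw [Finset.mem_image]
      exact ⟨(k'', k', k), by simp [hk, hk', hk''], rfl⟩
    · have hxz : x = k'⁻¹ * (k * z) := by
        simp only [mulS_false] at hkw hkw'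
        rw [hkw, ← hkw']
        group
      have : mulS false z (k'' * k'⁻¹ * k) = f ⟨n, false, x, hx⟩ := by
        rw [← hkf, mulS_false, mulS_false, hxz]
        group
      rw [this, hc]
  · refine ⟨k * k'⁻¹ * k'', ?_, ?_⟩
    · rw [Finset.mem_image]
      exact ⟨(k, k', k''), by simp [hk, hk', hk''], rfl⟩
    · have hxz : x = z * k * k'⁻¹ := by
        simp only [mulS_true] at hkw hkw'
        rw [hkw, ← hkw']
        group
      have : mulS true z (k * k'⁻¹ * k'') = f ⟨n, true, x, hx⟩ := by
        rw [← hkf, mulS_true, mulS_true, hxz]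
        group
      rw [this, hc]

lemma mk_closure_le (S : Set G) : #(Subgroup.closure S) ≤ max #S ℵ₀ := by
  rcases isEmpty_or_nonempty S with h | h
  · have : S = ∅ := Set.isEmpty_coe_sort.mp h
    subst this
    rw [Subgroup.closure_empty]
    refine le_trans ?_ (le_max_right _ _)
    have : #((⊥ : Subgroup G)) = 1 := by
      rw [Cardinal.mk_eq_one]
    rw [this]
    exact one_le_aleph0
  · rw [FreeGroup.closure_eq_range, ← Cardinal.mk_freeGroup]
    exact Cardinal.mk_le_of_surjective (MonoidHom.rangeRestrict_surjective _)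

/-- Main colouring theorem. -/
theorem exists_colouring [Infinite G] : ∃ c : G → G, ∀ g, ∃ K : Set G, #K < #G ∧
    ∀ s z, ∃ h ∈ K, c (mulS s z h) = g := by
  classical
  rcases eq_or_lt_of_le (Cardinal.aleph0_le_mk G) with h0 | h0
  · -- countable
    obtain ⟨inst⟩ := Cardinal.denumerable_iff.mpr h0.symm
    let e : ℕ ≃ G := (Denumerable.eqv G).symm
    obtain ⟨c, hc⟩ := countable_case (G := G)
    refine ⟨fun w => e (c w), fun g => ?_⟩
    obtain ⟨F, hF⟩ := hc (e.symm g)
    refine ⟨(F : Set G), ?_, ?_⟩
    · rw [← h0]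
      exact Cardinal.mk_lt_aleph0_iff.mpr (Finset.finite_toSet F)
    · intro s z
      obtain ⟨h, hh, he⟩ := hF s z
      refine ⟨h, hh, ?_⟩
      change e (c (mulS s z h)) = g
      rw [he, Equiv.apply_symm_apply]
  · obtain ⟨_, _, hord⟩ := Cardinal.exists_ord_eq_type_lt G
    by_cases hs : ∃ μ < #G, ∀ ν < #G, ν ≤ μ
    · obtain ⟨μ, hμ, hμ'⟩ := hs
      have hμ0 : ℵ₀ ≤ μ := hμ' _ h0
      obtain ⟨S₀, hS₀⟩ := Cardinal.le_mk_iff_exists_set.mp hμ.le
      let M : G → Subgroup G := fun i => Subgroup.closure (S₀ ∪ Set.Iic i)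
      have hM : Monotone M := by
        intro i j hij
        apply Subgroup.closure_mono
        exact Set.union_subset_union_right _ (Set.Iic_subset_Iic.mpr hij)
      have hcov : ∀ g, ∃ i, g ∈ M i := fun g =>
        ⟨g, Subgroup.subset_closure (Or.inr (Set.mem_Iic.mpr le_rfl))⟩
      have hcard : ∀ i, #(M i) = μ := by
        intro i
        apply le_antisymm
        · refine (mk_closure_le _).trans (max_le ?_ hμ0)
          refine (mk_union_le _ _).trans ?_
          have h1 : #(Set.Iic i) ≤ μ := by
            apply hμ'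
            have h2 : Set.Iic i ⊆ insert i (Set.Iio i) := by
              intro x hx
              rcases eq_or_lt_of_le (Set.mem_Iic.mp hx) with h | h
              · exact Or.inl h
              · exact Or.inr h
            refine lt_of_le_of_lt ((mk_le_mk_of_subset h2).trans mk_insert_le) ?_
            exact add_lt_of_lt h0.le (Cardinal.mk_Iio_lt i hord) (one_lt_aleph0.trans h0)
          exact (add_le_add hS₀.le h1).trans (add_eq_self hμ0).le
        · rw [← hS₀]
          exact mk_le_mk_of_subset (fun x hx => Subgroup.subset_closure (Or.inl hx))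
      obtain ⟨c, hc⟩ := succ_case hM hcov μ hμ0 hcard
      refine ⟨c, fun g => ?_⟩
      obtain ⟨i, hi⟩ := hc g
      exact ⟨M i, by rw [show #((M i : Set G)) = #(M i) from rfl, hcard]; exact hμ, hi⟩
    · push Not at hs
      have hsucc : ∀ μ < #G, Order.succ μ < #G := by
        intro μ hμ
        obtain ⟨ν, hν, hμν⟩ := hs μ hμ
        exact lt_of_le_of_lt (Order.succ_le_of_lt hμν) hν
      -- initial segments
      let A : Cardinal.{u} → Set G := fun μ => {g | #(Set.Iio g) < μ}
      have hA : ∀ μ ≤ #G, #(A μ) = μ := by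
        intro μ hμ
        have hiff : ∀ g : G, g ∈ A μ ↔ Ordinal.typein (α := G) (· < ·) g < μ.ord := by
          intro g
          rw [Cardinal.lt_ord, Ordinal.card_typein]
          exact Iff.rfl
        let φ : A μ → Set.Iio μ.ord := fun g =>
          ⟨Ordinal.typein (α := G) (· < ·) g.1, (hiff g.1).mp g.2⟩
        have hφ : Function.Bijective φ := by
          constructor
          · intro x y hxy
            have hxy' := congrArg Subtype.val hxy
            exact Subtype.ext (Ordinal.typein_injective (α := G) (· < ·) hxy')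
          · rintro ⟨o, ho⟩
            have ho' : o < Ordinal.type (α := G) (· < ·) := by
              rw [← hord]
              exact lt_of_lt_of_le ho (Cardinal.ord_le_ord.mpr hμ)
            obtain ⟨g, hg⟩ := Ordinal.typein_surj (α := G) (· < ·) ho'
            exact ⟨⟨g, (hiff g).mpr (by rw [hg]; exact ho)⟩, Subtype.ext hg⟩
        have h1 := Cardinal.lift_mk_eq'.mpr ⟨Equiv.ofBijective φ hφ⟩
        rw [Cardinal.mk_Iio_ordinal, Cardinal.card_ord] at h1
        simpa using h1
      let I := {μ : Cardinal.{u} // ℵ₀ ≤ μ ∧ μ < #G}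
      let M : I → Subgroup G := fun i => Subgroup.closure (A (Order.succ i.1))
      have hAmono : ∀ μ ν : Cardinal.{u}, μ ≤ ν → A μ ⊆ A ν := by
        intro μ ν hμν g hg
        exact lt_of_lt_of_le hg hμν
      have hM : Monotone M := by
        intro i j hij
        apply Subgroup.closure_mono
        apply hAmono
        exact Order.succ_le_succ hij
      have hcov : ∀ g, ∃ i, g ∈ M i := by
        intro g
        refine ⟨⟨max ℵ₀ #(Set.Iio g), le_max_left _ _, max_lt h0 (Cardinal.mk_Iio_lt g hord)⟩, ?_⟩
        apply Subgroup.subset_closure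
        change #(Set.Iio g) < Order.succ (max ℵ₀ #(Set.Iio g))
        exact Order.lt_succ_of_le (le_max_right _ _)
      have hle : ∀ i : I, #(M i) ≤ Order.succ i.1 := by
        intro i
        refine (mk_closure_le _).trans (max_le ?_ (i.2.1.trans (Order.le_succ _)))
        exact (hA _ (Order.succ_le_of_lt i.2.2)).le
      have hge : ∀ i : I, Order.succ i.1 ≤ #(M i) := by
        intro i
        rw [← hA _ (Order.succ_le_of_lt i.2.2)]
        exact mk_le_mk_of_subset Subgroup.subset_closure
      have hinf : ∀ i : I, ℵ₀ ≤ #(M i) := fun i => (i.2.1.trans (Order.le_succ _)).trans (hge i)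
      have hlt : ∀ i : I, #(N hM i) < #(M i) := by
        intro i
        refine lt_of_le_of_lt ?_ (lt_of_lt_of_le (Order.lt_succ i.1) (hge i))
        have h1 : (N hM i : Set G) ⊆ (Subgroup.closure (A i.1) : Set G) := by
          rintro h (rfl | ⟨j, hj, hh⟩)
          · exact Subgroup.one_mem _
          · exact Subgroup.closure_mono (hAmono _ _ (Order.succ_le_of_lt hj)) hh
        refine (mk_le_mk_of_subset h1).trans ((mk_closure_le _).trans (max_le ?_ i.2.1))
        exact (hA _ i.2.2.le).le
      obtain ⟨c, hc⟩ := limit_case hM hcov hinf hlt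
      refine ⟨c, fun g => ?_⟩
      obtain ⟨i, hi⟩ := hc g
      exact ⟨M i, lt_of_le_of_lt (hle i) (hsucc _ i.2.2), hi⟩

end Pool.Agent.H58.KL
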